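import Mathlib

/-! Counting lemmas for Steiner systems of any strength. -/

namespace Pool.Agent.FS.SuperQuad
open Finset

variable {Ω : Type} [Fintype Ω] [DecidableEq Ω]

/-- A Steiner system of strength `t` with block size `k`. -/
structure St (t k : ℕ) (𝔅 : Finset (Finset Ω)) : Prop where
  size : ∀ b ∈ 𝔅, b.card = k
  ex : ∀ T : Finset Ω, T.card = t → ∃ b ∈ 𝔅, T ⊆ b
  uniq : ∀ T : Finset Ω, T.card = t → ∀ b ∈ 𝔅, ∀ b' ∈ 𝔅, T ⊆ b → T ⊆ b' → b = b'

theorem St.lam {t k : ℕ} {𝔅 : Finset (Finset Ω)} (h : St t k 𝔅) (I : Finset Ω)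
    (hI : I.card ≤ t) :
    (𝔅.filter (fun b => I ⊆ b)).card * (k - I.card).choose (t - I.card) =
      (Fintype.card Ω - I.card).choose (t - I.card) := by
  have h1 := card_filter_powersetCard_subset I (univ : Finset Ω) t (subset_univ _) hI
  rw [card_univ] at h1
  rw [← h1]
  have h2 : ((univ : Finset Ω).powersetCard t).filter (fun T => I ⊆ T) =
      (𝔅.filter (fun b => I ⊆ b)).biUnion (fun b => (b.powersetCard t).filter (fun T => I ⊆ T)) := by
    ext T
    simp only [mem_filter, mem_powersetCard, subset_univ, true_and, mem_biUnion]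
    constructor
    · rintro ⟨hT, hIT⟩
      obtain ⟨b, hb, hTb⟩ := h.ex T hT
      exact ⟨b, ⟨hb, hIT.trans hTb⟩, ⟨hTb, hT⟩, hIT⟩
    · rintro ⟨b, -, ⟨-, hT⟩, hIT⟩
      exact ⟨hT, hIT⟩
  rw [h2, card_biUnion]
  · rw [Finset.sum_congr rfl (g := fun _ => (k - I.card).choose (t - I.card))]
    · simp
    · intro b hb
      rw [mem_filter] at hb
      rw [card_filter_powersetCard_subset I b t hb.2 hI, h.size b hb.1]
  · intro b hb b' hb' hne
    rw [Function.onFun, Finset.disjoint_left]
    intro T hT hT'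
    simp only [mem_filter, mem_powersetCard, coe_filter, Set.mem_ofPred_eq] at hT hT' hb hb'
    exact hne (h.uniq T hT.1.2 b hb.1 b' hb'.1 hT.1.1 hT'.1.1)

theorem St.asc {t k : ℕ} {𝔅 : Finset (Finset Ω)} (h : St t k 𝔅) (a u j : ℕ) (hj : j ≤ t)
    (hk : k = t + a) (hv : Fintype.card Ω = t + u) :
    ∃ b : ℕ, b * (a + 1).ascFactorial j = (u + 1).ascFactorial j := by
  obtain ⟨I, -, hI⟩ := exists_subset_card_eq (s := (univ : Finset Ω)) (n := t - j)
    (by rw [card_univ]; omega)
  have := h.lam I (by omega)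
  rw [hI, show k - (t - j) = a + j by omega, show t - (t - j) = j by omega,
    show Fintype.card Ω - (t - j) = u + j by omega] at this
  refine ⟨(𝔅.filter (fun b => I ⊆ b)).card, ?_⟩
  rw [Nat.ascFactorial_eq_factorial_mul_choose, Nat.ascFactorial_eq_factorial_mul_choose, ← this]
  ring

theorem St.fisher {t k : ℕ} {𝔅 : Finset (Finset Ω)} (h : St (t + 2) k 𝔅) (hk : t + 2 < k)
    (hv : k < Fintype.card Ω) : (k - t) * (k - (t + 1)) ≤ Fintype.card Ω - (t + 1) := by
  obtain ⟨T, -, hT⟩ := exists_subset_card_eq (s := (univ : Finset Ω)) (n := t + 2)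
    (by rw [card_univ]; omega)
  obtain ⟨B, hB, -⟩ := h.ex T hT
  have hBk := h.size B hB
  obtain ⟨Q, hQB, hQ⟩ := exists_subset_card_eq (s := B) (n := t) (by omega)
  obtain ⟨x, -, hx⟩ := exists_mem_notMem_of_card_lt_card (s := B) (t := univ)
    (by rw [card_univ]; omega)
  have hxQ : x ∉ Q := fun hh => hx (hQB hh)
  have hP : (insert x Q).card = t + 1 := by rw [card_insert_of_notMem hxQ, hQ]
  have h1 := h.lam (insert x Q) (by omega)
  rw [hP] at h1
  simp only [show t + 2 - (t + 1) = 1 by omega, Nat.choose_one_right] at h1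
  rw [← h1]
  apply Nat.mul_le_mul_right
  have hy : ∀ y ∈ B \ Q, (insert y (insert x Q)).card = t + 2 := by
    intro y hy
    rw [mem_sdiff] at hy
    rw [card_insert_of_notMem, hP]
    simp only [mem_insert, not_or]
    exact ⟨fun hh => hx (hh ▸ hy.1), hy.2⟩
  have hc : (B \ Q).card = k - t := by rw [card_sdiff_of_subset hQB, hBk, hQ]
  rw [← hc]
  choose! f hf using fun y (hyy : y ∈ B \ Q) => h.ex _ (hy y hyy)
  refine card_le_card_of_injOn f ?_ ?_
  · intro y hyy
    have := hf y hyy
    simp only [coe_filter, Set.mem_ofPred_eq]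
    exact ⟨this.1, (subset_insert _ _).trans this.2⟩
  · intro y hyy y' hyy' hff
    by_contra hne
    have a1 := hf y hyy
    have a2 := hf y' hyy'
    have hyy1 := mem_sdiff.mp (mem_coe.mp hyy)
    have hyy2 := mem_sdiff.mp (mem_coe.mp hyy')
    have hc6 : (insert y (insert y' Q)).card = t + 2 := by
      rw [card_insert_of_notMem, card_insert_of_notMem hyy2.2, hQ]
      simp only [mem_insert, not_or]
      exact ⟨hne, hyy1.2⟩
    have hsub1 : insert y (insert y' Q) ⊆ B := by
      intro z hz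
      simp only [mem_insert] at hz
      rcases hz with rfl | rfl | hz
      exacts [hyy1.1, hyy2.1, hQB hz]
    have hsub2 : insert y (insert y' Q) ⊆ f y := by
      intro z hz
      simp only [mem_insert] at hz
      rcases hz with rfl | rfl | hz
      · exact a1.2 (mem_insert_self _ _)
      · rw [hff]; exact a2.2 (mem_insert_self _ _)
      · exact a1.2 (mem_insert_of_mem (mem_insert_of_mem hz))
    have := h.uniq _ hc6 B hB (f y) a1.1 hsub1 hsub2
    exact hx (this ▸ a1.2 (mem_insert_of_mem (mem_insert_self _ _)))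

end Pool.Agent.FS.SuperQuad
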