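import Pool.Agent.FS.SuperQuad.Aux6

/-! The size argument: five divisibility conditions and `k ≤ r` force `k ^ 5 ≤ 10 ^ 22 * r ^ 4`. -/

namespace Pool.Agent.FS.SuperQuad

theorem size6 (k s : ℤ) (hk : 1000 ≤ k) (s0 : k ^ 2 ≤ 2 * s) (s1 : 10 ^ 22 * s ^ 2 ≤ k ^ 5) :
    0 < -F6 k s ∧ 10 ^ 22 * (-F6 k s) ≤ 2 * 10 ^ 11 * k ^ 10 := by
  have k0 : 0 < k := by linarith
  have e : ∀ i : ℕ, 1000 * k ^ i ≤ k ^ (i + 1) := fun i => by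
    rw [pow_succ']; exact mul_le_mul_of_nonneg_right hk (pow_nonneg k0.le i)
  have e1 : 1000 * k ≤ k ^ 2 := by simpa using e 1
  have e2 : 1000 * k ^ 2 ≤ k ^ 3 := e 2
  have e3 : 1000 * k ^ 3 ≤ k ^ 4 := e 3
  have e4 : 1000 * k ^ 4 ≤ k ^ 5 := e 4
  have e5 : 1000 * k ^ 5 ≤ k ^ 6 := e 5
  have e6 : 1000 * k ^ 6 ≤ k ^ 7 := e 6
  have p2 : 0 < k ^ 2 := by positivity
  have p5 : 0 < k ^ 5 := by positivity
  have hs : 0 < s := by linarith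
  have q2 : 0 < s ^ 2 := by positivity
  have s2 : s ≤ k ^ 3 := by
    have : s ^ 2 ≤ (k ^ 3) ^ 2 := by
      have : (k ^ 3) ^ 2 = k ^ 6 := by ring
      linarith
    exact (pow_le_pow_iff_left₀ hs.le (by positivity) two_ne_zero).mp this
  obtain ⟨A2, hA2⟩ : ∃ A2, A2 = 98368092000 * k ^ 2 + 281367864000 * k := ⟨_, rfl⟩
  obtain ⟨A1, hA1⟩ : ∃ A1, A1 = 401784524 * k ^ 5 + 198419644 * k ^ 4 - 19462755736 * k ^ 3
      - 41206673856 * k ^ 2 := ⟨_, rfl⟩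
  obtain ⟨A0, hA0⟩ : ∃ A0, A0 = 99922295 * k ^ 7 + 1119553571 * k ^ 6 + 4399670176 * k ^ 5
      + 6860969956 * k ^ 4 + 3480931056 * k ^ 3 := ⟨_, rfl⟩
  have hF : -F6 k s = s * (A2 * s ^ 2 + A1 * s - 380842560000 * s ^ 3 - A0) := by
    rw [hA2, hA1, hA0]; unfold F6; ring
  have a2l : 0 ≤ A2 := by linarith
  have a2u : A2 ≤ 10 ^ 11 * k ^ 2 := by linarith
  have a1l : 4 * 10 ^ 8 * k ^ 5 ≤ A1 := by linarith
  have a1u : A1 ≤ 5 * 10 ^ 8 * k ^ 5 := by linarith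
  have a0l : 0 ≤ A0 := by linarith
  have a0u : A0 ≤ 102000000 * k ^ 7 := by linarith
  obtain ⟨T, hT⟩ : ∃ T, T = k ^ 5 * s := ⟨_, rfl⟩
  have T0 : 0 < T := by rw [hT]; positivity
  have q3 : 0 < s ^ 3 := by positivity
  have t1 : 10 ^ 22 * s ^ 3 ≤ T := by
    have := mul_le_mul_of_nonneg_right s1 hs.le
    rw [hT]; linarith [this, show 10 ^ 22 * s ^ 2 * s = 10 ^ 22 * s ^ 3 by ring]
  have t2 : k ^ 7 ≤ 2 * T := by
    have := mul_le_mul_of_nonneg_left s0 p5.le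
    rw [hT]; linarith [this, show k ^ 5 * k ^ 2 = k ^ 7 by ring]
  have t3 : 4 * 10 ^ 8 * T ≤ A1 * s := by
    have := mul_le_mul_of_nonneg_right a1l hs.le
    rw [hT]; linarith
  have t4 : A1 * s ≤ 5 * 10 ^ 8 * T := by
    have := mul_le_mul_of_nonneg_right a1u hs.le
    rw [hT]; linarith
  have t5 : 0 ≤ A2 * s ^ 2 := mul_nonneg a2l q2.le
  have t6 : A2 * s ^ 2 ≤ 10 ^ 11 * T := by
    have h1 := mul_le_mul_of_nonneg_right a2u q2.le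
    have h2 := mul_le_mul_of_nonneg_left s2 (mul_pos p2 hs).le
    rw [hT]; nlinarith [h1, h2]
  have gl : 0 < A2 * s ^ 2 + A1 * s - 380842560000 * s ^ 3 - A0 := by linarith
  have gu : A2 * s ^ 2 + A1 * s - 380842560000 * s ^ 3 - A0 ≤ 2 * 10 ^ 11 * T := by linarith
  refine ⟨by rw [hF]; positivity, ?_⟩
  rw [hF]
  have h1 := mul_le_mul_of_nonneg_left gu hs.le
  have h2 := mul_le_mul_of_nonneg_left s1 p5.le
  rw [hT] at h1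
  nlinarith [h1, h2]

theorem arith6 (k r : ℤ) (hk : 3 ≤ k) (hr : k ≤ r)
    (h0 : (k+0) ∣ r*(1+0-1*r))
    (h1 : (k+1) ∣ r*(1+0-2*r)*(1+1-2*r))
    (h2 : (k+2) ∣ r*(1+0-3*r)*(1+1-3*r)*(1+2-3*r))
    (h3 : (k+3) ∣ r*(1+0-4*r)*(1+1-4*r)*(1+2-4*r)*(1+3-4*r))
    (h4 : (k+4) ∣ r*(1+0-5*r)*(1+1-5*r)*(1+2-5*r)*(1+3-5*r)*(1+4-5*r)) :
    k ^ 5 ≤ 10 ^ 22 * r ^ 4 := by
  by_contra hlt
  rw [not_le] at hlt
  have k0 : 0 < k := by linarith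
  have r0 : 0 < r := by linarith
  have hk4 : k ^ 4 ≤ r ^ 4 := pow_le_pow_left₀ k0.le hr 4
  have p4 : 0 < k ^ 4 := by positivity
  have kbig : 1000 ≤ k := by
    by_contra hh
    rw [not_le] at hh
    have := mul_le_mul_of_nonneg_right hh.le p4.le
    nlinarith
  have s0 : k ^ 2 ≤ 2 * (r * (r - 1)) := by nlinarith
  have s1 : 10 ^ 22 * (r * (r - 1)) ^ 2 ≤ k ^ 5 := by
    have a : r * (r - 1) ≤ r ^ 2 := by nlinarith
    have b : (r * (r - 1)) ^ 2 ≤ (r ^ 2) ^ 2 := pow_le_pow_left₀ (by nlinarith) a 2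
    have c : (r ^ 2) ^ 2 = r ^ 4 := by ring
    linarith
  obtain ⟨f0, f1⟩ := size6 k _ kbig s0 s1
  have hd := F6_comb k _ (F6_dvd0 k r h0) (F6_dvd1 k r h1) (F6_dvd2 k r h2) (F6_dvd3 k r h3)
    (F6_dvd4 k r h4)
  have hd' := Int.le_of_dvd (by linarith : 0 < -(47775744 * (180 * F6 k (r * (r - 1)))))
    ((dvd_neg).mpr hd)
  have hD : k ^ 10 ≤ (((((k+0)^4) * (k+1)^2) * (k+2)^2) * (k+3)^1) * (k+4)^1 := by
    calc k ^ 10 = ((((k^4) * k^2) * k^2) * k^1) * k^1 := by ring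
      _ ≤ _ := by gcongr <;> linarith
  have p10 : 0 < k ^ 10 := by positivity
  linarith

end Pool.Agent.FS.SuperQuad
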