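import Mathlib

/-! Auxiliary polynomial for the divisibility conditions of a Steiner system. -/

namespace Pool.Agent.FS.SuperQuad

theorem comb {a b X u v g : ℤ} (ha : a ∣ X) (hb : b ∣ X) (h : u * a + v * b = g) :
    a * b ∣ g * X := by
  obtain ⟨x, hx⟩ := ha
  obtain ⟨y, hy⟩ := hb
  refine ⟨u * y + v * x, ?_⟩
  rw [← h]
  linear_combination (u * a) * hy + (v * b) * hx

def F6 (k s : ℤ) : ℤ :=
  ((3480931056)*k^3 + (6860969956)*k^4 + (4399670176)*k^5 + (1119553571)*k^6 + (99922295)*k^7)*s^1 + ((41206673856)*k^2 + (19462755736)*k^3 + (-198419644)*k^4 + (-401784524)*k^5)*s^2 + ((-281367864000)*k^1 + (-98368092000)*k^2)*s^3 + ((380842560000)*k^0)*s^4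

theorem F6_dvd0 (k r : ℤ) (h : (k+0) ∣ r*(1+0-1*r)) : (k+0)^4 ∣ 180 * F6 k (r*(r-1)) := by
  have key : ∀ P : ℤ, P = r*(1+0-1*r) → 180 * F6 k (r*(r-1)) = (k+0)^4 * (((-1234974592080)*r^1 + (1199259056160)*r^2 + (71431071840)*r^3 + (-35715535920)*r^4)*(k+0)^0 + ((-791940631680)*r^1 + (719619417360)*r^2 + (144642428640)*r^3 + (-72321214320)*r^4)*(k+0)^1 + ((-201519642780)*r^1 + (201519642780)*r^2)*(k+0)^2 + ((-17986013100)*r^1 + (17986013100)*r^2)*(k+0)^3) + ((k+0)^0*P^4*((68551660800000)*r^0) + (k+0)^1*P^3*((50646215520000)*r^0) + (k+0)^2*P^2*((7417201294080)*r^0 + (17706256560000)*r^1 + (-17706256560000)*r^2) + (k+0)^3*P^1*((-626567590080)*r^0 + (3503296032480)*r^1 + (-3503296032480)*r^2)) := by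
    intro P hP; subst hP; unfold F6; ring
  obtain ⟨m, hm⟩ := h
  rw [key ((k+0)*m) hm.symm]
  exact ⟨(((-1234974592080)*r^1 + (1199259056160)*r^2 + (71431071840)*r^3 + (-35715535920)*r^4)*(k+0)^0 + ((-791940631680)*r^1 + (719619417360)*r^2 + (144642428640)*r^3 + (-72321214320)*r^4)*(k+0)^1 + ((-201519642780)*r^1 + (201519642780)*r^2)*(k+0)^2 + ((-17986013100)*r^1 + (17986013100)*r^2)*(k+0)^3) + (m^4*((68551660800000)*r^0) + m^3*((50646215520000)*r^0) + m^2*((7417201294080)*r^0 + (17706256560000)*r^1 + (-17706256560000)*r^2) + m^1*((-626567590080)*r^0 + (3503296032480)*r^1 + (-3503296032480)*r^2)), by ring⟩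

theorem F6_dvd1 (k r : ℤ) (h : (k+1) ∣ r*(1+0-2*r)*(1+1-2*r)) : (k+1)^2 ∣ 180 * F6 k (r*(r-1)) := by
  have key : ∀ P : ℤ, P = r*(1+0-2*r)*(1+1-2*r) → 180 * F6 k (r*(r-1)) = (k+1)^2 * (((-255826832040)*r^1 + (-2327941043640)*r^2 + (22873792311360)*r^3 + (-55702537555680)*r^4 + (53118769680000)*r^5 + (-17706256560000)*r^6)*(k+1)^0 + ((-205193141460)*r^1 + (3128139174420)*r^2 + (-5845892065920)*r^3 + (2922946032960)*r^4)*(k+1)^1 + ((331444383120)*r^1 + (-5553847440)*r^2 + (-651781071360)*r^3 + (325890535680)*r^4)*(k+1)^2 + ((39470949900)*r^1 + (-111792164220)*r^2 + (144642428640)*r^3 + (-72321214320)*r^4)*(k+1)^3 + ((-75617551080)*r^1 + (75617551080)*r^2)*(k+1)^4 + ((-17986013100)*r^1 + (17986013100)*r^2)*(k+1)^5) + ((k+1)^0*P^2*((987627735000)*r^0 + (-4284478800000)*r^1 + (4284478800000)*r^2) + (k+1)^1*P^1*((91854102330)*r^0 + (-2087921004660)*r^1 + (5712638400000)*r^2 + (-3808425600000)*r^3))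 := by
    intro P hP; subst hP; unfold F6; ring
  obtain ⟨m, hm⟩ := h
  rw [key ((k+1)*m) hm.symm]
  exact ⟨(((-255826832040)*r^1 + (-2327941043640)*r^2 + (22873792311360)*r^3 + (-55702537555680)*r^4 + (53118769680000)*r^5 + (-17706256560000)*r^6)*(k+1)^0 + ((-205193141460)*r^1 + (3128139174420)*r^2 + (-5845892065920)*r^3 + (2922946032960)*r^4)*(k+1)^1 + ((331444383120)*r^1 + (-5553847440)*r^2 + (-651781071360)*r^3 + (325890535680)*r^4)*(k+1)^2 + ((39470949900)*r^1 + (-111792164220)*r^2 + (144642428640)*r^3 + (-72321214320)*r^4)*(k+1)^3 + ((-75617551080)*r^1 + (75617551080)*r^2)*(k+1)^4 + ((-17986013100)*r^1 + (17986013100)*r^2)*(k+1)^5) + (m^2*((987627735000)*r^0 + (-4284478800000)*r^1 + (4284478800000)*r^2) + m^1*((91854102330)*r^0 + (-2087921004660)*r^1 + (5712638400000)*r^2 + (-3808425600000)*r^3)), by ring⟩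

theorem F6_dvd2 (k r : ℤ) (h : (k+2) ∣ r*(1+0-3*r)*(1+1-3*r)*(1+2-3*r)) : (k+2)^2 ∣ 180 * F6 k (r*(r-1)) := by
  have key : ∀ P : ℤ, P = r*(1+0-3*r)*(1+1-3*r)*(1+2-3*r) → 180 * F6 k (r*(r-1)) = (k+2)^2 * (((1197152400960)*r^1 + (-9871203018240)*r^2 + (35054357794560)*r^3 + (-61792820297280)*r^4 + (53118769680000)*r^5 + (-17706256560000)*r^6)*(k+2)^0 + ((-253420611840)*r^1 + (1149592358880)*r^2 + (-1792343494080)*r^3 + (896171747040)*r^4)*(k+2)^1 + ((-370663174080)*r^1 + (1058159781360)*r^2 + (-1374993214560)*r^3 + (687496607280)*r^4)*(k+2)^2 + ((115469981280)*r^1 + (-187791195600)*r^2 + (144642428640)*r^3 + (-72321214320)*r^4)*(k+2)^3 + ((50284540620)*r^1 + (-50284540620)*r^2)*(k+2)^4 + ((-17986013100)*r^1 + (17986013100)*r^2)*(k+2)^5) + ((k+2)^0*P^2*((94035200000)*r^0) + (k+2)^1*P^1*((-120139520640)*r^0 + (747363360000)*r^1 + (-747363360000)*r^2)) := by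
    intro P hP; subst hP; unfold F6; ring
  obtain ⟨m, hm⟩ := h
  rw [key ((k+2)*m) hm.symm]
  exact ⟨(((1197152400960)*r^1 + (-9871203018240)*r^2 + (35054357794560)*r^3 + (-61792820297280)*r^4 + (53118769680000)*r^5 + (-17706256560000)*r^6)*(k+2)^0 + ((-253420611840)*r^1 + (1149592358880)*r^2 + (-1792343494080)*r^3 + (896171747040)*r^4)*(k+2)^1 + ((-370663174080)*r^1 + (1058159781360)*r^2 + (-1374993214560)*r^3 + (687496607280)*r^4)*(k+2)^2 + ((115469981280)*r^1 + (-187791195600)*r^2 + (144642428640)*r^3 + (-72321214320)*r^4)*(k+2)^3 + ((50284540620)*r^1 + (-50284540620)*r^2)*(k+2)^4 + ((-17986013100)*r^1 + (17986013100)*r^2)*(k+2)^5) + (m^2*((94035200000)*r^0) + m^1*((-120139520640)*r^0 + (747363360000)*r^1 + (-747363360000)*r^2)), by ring⟩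

theorem F6_dvd3 (k r : ℤ) (h : (k+3) ∣ r*(1+0-4*r)*(1+1-4*r)*(1+2-4*r)*(1+3-4*r)) : (k+3)^1 ∣ 180 * F6 k (r*(r-1)) := by
  have key : ∀ P : ℤ, P = r*(1+0-4*r)*(1+1-4*r)*(1+2-4*r)*(1+3-4*r) → 180 * F6 k (r*(r-1)) = (k+3)^1 * (((-2243010493980)*r^1 + (26895981686220)*r^2 + (-104897266224480)*r^3 + (191426942712240)*r^4 + (-166773971520000)*r^5 + (55591323840000)*r^6)*(k+3)^0 + ((-289290236400)*r^1 + (-6225083835120)*r^2 + (30735004703040)*r^3 + (-59633143751520)*r^4 + (53118769680000)*r^5 + (-17706256560000)*r^6)*(k+3)^1 + ((748730626380)*r^1 + (-3325757451660)*r^2 + (5154053650560)*r^3 + (-2577026825280)*r^4)*(k+3)^2 + ((435765487320)*r^1 + (613337191560)*r^2 + (-2098205357760)*r^3 + (1049102678880)*r^4)*(k+3)^3 + ((-563943537540)*r^1 + (491622323220)*r^2 + (144642428640)*r^3 + (-72321214320)*r^4)*(k+3)^4 + ((176186632320)*r^1 + (-176186632320)*r^2)*(k+3)^5 + ((-17986013100)*r^1 + (17986013100)*r^2)*(k+3)^6)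 + ((k+3)^0*P^1*((73064480625)*r^0 + (-12238998750)*r^1 + (-401669887500)*r^2 + (267779925000)*r^3)) := by
    intro P hP; subst hP; unfold F6; ring
  obtain ⟨m, hm⟩ := h
  rw [key ((k+3)*m) hm.symm]
  exact ⟨(((-2243010493980)*r^1 + (26895981686220)*r^2 + (-104897266224480)*r^3 + (191426942712240)*r^4 + (-166773971520000)*r^5 + (55591323840000)*r^6)*(k+3)^0 + ((-289290236400)*r^1 + (-6225083835120)*r^2 + (30735004703040)*r^3 + (-59633143751520)*r^4 + (53118769680000)*r^5 + (-17706256560000)*r^6)*(k+3)^1 + ((748730626380)*r^1 + (-3325757451660)*r^2 + (5154053650560)*r^3 + (-2577026825280)*r^4)*(k+3)^2 + ((435765487320)*r^1 + (613337191560)*r^2 + (-2098205357760)*r^3 + (1049102678880)*r^4)*(k+3)^3 + ((-563943537540)*r^1 + (491622323220)*r^2 + (144642428640)*r^3 + (-72321214320)*r^4)*(k+3)^4 + ((176186632320)*r^1 + (-176186632320)*r^2)*(k+3)^5 + ((-17986013100)*r^1 + (17986013100)*r^2)*(k+3)^6)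 + (m^1*((73064480625)*r^0 + (-12238998750)*r^1 + (-401669887500)*r^2 + (267779925000)*r^3)), by ring⟩

theorem F6_dvd4 (k r : ℤ) (h : (k+4) ∣ r*(1+0-5*r)*(1+1-5*r)*(1+2-5*r)*(1+3-5*r)*(1+4-5*r)) : (k+4)^1 ∣ 180 * F6 k (r*(r-1)) := by
  have key : ∀ P : ℤ, P = r*(1+0-5*r)*(1+1-5*r)*(1+2-5*r)*(1+3-5*r)*(1+4-5*r) → 180 * F6 k (r*(r-1)) = (k+4)^1 * (((-5164039664640)*r^1 + (30556661736960)*r^2 + (-141789081104640)*r^3 + (298404132952320)*r^4 + (-273011510880000)*r^5 + (91003836960000)*r^6)*(k+4)^0 + ((8739051943680)*r^1 + (-504517322880)*r^2 + (1237187318400)*r^3 + (-44884235059200)*r^4 + (53118769680000)*r^5 + (-17706256560000)*r^6)*(k+4)^1 + ((-10787009803200)*r^1 + (3290360119200)*r^2 + (14993299368000)*r^3 + (-7496649684000)*r^4)*(k+4)^2 + ((6527793118320)*r^1 + (-5117084367840)*r^2 + (-2821417500960)*r^3 + (1410708750480)*r^4)*(k+4)^3 + ((-1998769606560)*r^1 + (1926448392240)*r^2 + (144642428640)*r^3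 + (-72321214320)*r^4)*(k+4)^4 + ((302088724020)*r^1 + (-302088724020)*r^2)*(k+4)^5 + ((-17986013100)*r^1 + (17986013100)*r^2)*(k+4)^6) + ((k+4)^0*P^1*((34603490304)*r^0 + (21936531456)*r^1 + (-21936531456)*r^2)) := by
    intro P hP; subst hP; unfold F6; ring
  obtain ⟨m, hm⟩ := h
  rw [key ((k+4)*m) hm.symm]
  exact ⟨(((-5164039664640)*r^1 + (30556661736960)*r^2 + (-141789081104640)*r^3 + (298404132952320)*r^4 + (-273011510880000)*r^5 + (91003836960000)*r^6)*(k+4)^0 + ((8739051943680)*r^1 + (-504517322880)*r^2 + (1237187318400)*r^3 + (-44884235059200)*r^4 + (53118769680000)*r^5 + (-17706256560000)*r^6)*(k+4)^1 + ((-10787009803200)*r^1 + (3290360119200)*r^2 + (14993299368000)*r^3 + (-7496649684000)*r^4)*(k+4)^2 + ((6527793118320)*r^1 + (-5117084367840)*r^2 + (-2821417500960)*r^3 + (1410708750480)*r^4)*(k+4)^3 + ((-1998769606560)*r^1 + (1926448392240)*r^2 + (144642428640)*r^3 + (-72321214320)*r^4)*(k+4)^4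 + ((302088724020)*r^1 + (-302088724020)*r^2)*(k+4)^5 + ((-17986013100)*r^1 + (17986013100)*r^2)*(k+4)^6) + (m^1*((34603490304)*r^0 + (21936531456)*r^1 + (-21936531456)*r^2)), by ring⟩

theorem F6_comb (k X : ℤ) (h0 : (k+0)^4 ∣ X) (h1 : (k+1)^2 ∣ X) (h2 : (k+2)^2 ∣ X) (h3 : (k+3)^1 ∣ X) (h4 : (k+4)^1 ∣ X) :
    (((((k+0)^4) * (k+1)^2) * (k+2)^2) * (k+3)^1) * (k+4)^1 ∣ 47775744 * X := by
  have a1 := comb (X := 1 * X) (g := 1) (u := ((5)*k^0 + (4)*k^1)) (v := ((1)*k^0 + (-2)*k^1 + (3)*k^2 + (-4)*k^3)) (Dvd.dvd.mul_left h0 1) (Dvd.dvd.mul_left h1 1) (by ring)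
  have b1 : ((k+0)^4) * (k+1)^2 ∣ 1 * X := by convert a1 using 1; ring
  have a2 := comb (X := 1 * X) (g := 16) (u := ((9)*k^0 + (4)*k^1)) (v := ((4)*k^0 + (-4)*k^1 + (3)*k^2 + (-2)*k^3 + (-1)*k^4 + (-4)*k^5)) b1 (Dvd.dvd.mul_left h2 1) (by ring)
  have b2 : (((k+0)^4) * (k+1)^2) * (k+2)^2 ∣ 16 * X := by convert a2 using 1; ring
  have a3 := comb (X := 16 * X) (g := 324) (u := ((1)*k^0)) (v := ((108)*k^0 + (-36)*k^1 + (12)*k^2 + (-4)*k^3 + (-4)*k^5 + (-3)*k^6 + (-1)*k^7)) b2 (Dvd.dvd.mul_left h3 16) (by ring)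
  have b3 : ((((k+0)^4) * (k+1)^2) * (k+2)^2) * (k+3)^1 ∣ 5184 * X := by convert a3 using 1; ring
  have a4 := comb (X := 5184 * X) (g := 9216) (u := ((-1)*k^0)) (v := ((2304)*k^0 + (-576)*k^1 + (144)*k^2 + (-36)*k^3 + (12)*k^4 + (7)*k^5 + (11)*k^6 + (5)*k^7 + (1)*k^8)) b3 (Dvd.dvd.mul_left h4 5184) (by ring)
  have b4 : (((((k+0)^4) * (k+1)^2) * (k+2)^2) * (k+3)^1) * (k+4)^1 ∣ 47775744 * X := by convert a4 using 1; ring
  exact b4

end Pool.Agent.FS.SuperQuad
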