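import Pool.Agent.FS.SuperQuad.Main

/-! Auxiliary polynomial for three divisibility conditions, and the bound in strength at least four. -/

namespace Pool.Agent.FS.SuperQuad

def F4 (k s : ℤ) : ℤ :=
  ((4)*k^5 + (16)*k^6 + (25)*k^7 + (19)*k^8 + (7)*k^9 + (1)*k^10)*s^1 + ((92)*k^4 + (268)*k^5 + (279)*k^6 + (122)*k^7 + (19)*k^8)*s^2 + ((556)*k^3 + (912)*k^4 + (399)*k^5 + (43)*k^6)*s^3 + ((-540)*k^2 + (-2052)*k^3 + (-783)*k^4)*s^4 + ((-7776)*k^1 + (-1944)*k^2)*s^5 + ((11664)*k^0)*s^6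

theorem F4_dvd0 (k r : ℤ) (h : (k+0) ∣ r*(1+0-1*r)) : (k+0)^6 ∣ 432 * F4 k (r*(r-1)) := by
  have key : ∀ P : ℤ, P = r*(1+0-1*r) → 432 * F4 k (r*(r-1)) = (k+0)^6 * (((-6912)*r^1 + (127440)*r^2 + (-259632)*r^3 + (176256)*r^4 + (-55728)*r^5 + (18576)*r^6)*(k+0)^0 + ((-10800)*r^1 + (63504)*r^2 + (-105408)*r^3 + (52704)*r^4)*(k+0)^1 + ((-8208)*r^1 + (16416)*r^2 + (-16416)*r^3 + (8208)*r^4)*(k+0)^2 + ((-3024)*r^1 + (3024)*r^2)*(k+0)^3 + ((-432)*r^1 + (432)*r^2)*(k+0)^4) + ((k+0)^0*P^6*((5038848)*r^0) + (k+0)^1*P^5*((3359232)*r^0) + (k+0)^2*P^4*((-233280)*r^0 + (839808)*r^1 + (-839808)*r^2) + (k+0)^3*P^3*((-240192)*r^0 + (-886464)*r^1 + (886464)*r^2) + (k+0)^4*P^2*((39744)*r^0 + (-393984)*r^1 + (55728)*r^2 + (676512)*r^3 + (-338256)*r^4) + (k+0)^5*P^1*((-1728)*r^0 + (115776)*r^1 + (-288144)*r^2 + (344736)*r^3 + (-172368)*r^4)) := by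
    intro P hP; subst hP; unfold F4; ring
  obtain ⟨m, hm⟩ := h
  rw [key ((k+0)*m) hm.symm]
  exact ⟨(((-6912)*r^1 + (127440)*r^2 + (-259632)*r^3 + (176256)*r^4 + (-55728)*r^5 + (18576)*r^6)*(k+0)^0 + ((-10800)*r^1 + (63504)*r^2 + (-105408)*r^3 + (52704)*r^4)*(k+0)^1 + ((-8208)*r^1 + (16416)*r^2 + (-16416)*r^3 + (8208)*r^4)*(k+0)^2 + ((-3024)*r^1 + (3024)*r^2)*(k+0)^3 + ((-432)*r^1 + (432)*r^2)*(k+0)^4) + (m^6*((5038848)*r^0) + m^5*((3359232)*r^0) + m^4*((-233280)*r^0 + (839808)*r^1 + (-839808)*r^2) + m^3*((-240192)*r^0 + (-886464)*r^1 + (886464)*r^2) + m^2*((39744)*r^0 + (-393984)*r^1 + (55728)*r^2 + (676512)*r^3 + (-338256)*r^4) + m^1*((-1728)*r^0 + (115776)*r^1 + (-288144)*r^2 + (344736)*r^3 + (-172368)*r^4)), by ring⟩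

theorem F4_dvd1 (k r : ℤ) (h : (k+1) ∣ r*(1+0-2*r)*(1+1-2*r)) : (k+1)^4 ∣ 432 * F4 k (r*(r-1)) := by
  have key : ∀ P : ℤ, P = r*(1+0-2*r)*(1+1-2*r) → 432 * F4 k (r*(r-1)) = (k+1)^4 * (((-1296)*r^1 + (191808)*r^3 + (-907200)*r^4 + (1920672)*r^5 + (-2218752)*r^6 + (1353024)*r^7 + (-338256)*r^8)*(k+1)^0 + ((432)*r^1 + (39312)*r^2 + (-140400)*r^3 + (222480)*r^4 + (-182736)*r^5 + (60912)*r^6)*(k+1)^1 + ((2160)*r^1 + (-20736)*r^2 + (18576)*r^3 + (37152)*r^4 + (-55728)*r^5 + (18576)*r^6)*(k+1)^2 + ((-2160)*r^1 + (-10800)*r^2 + (25920)*r^3 + (-12960)*r^4)*(k+1)^3 + ((-432)*r^1 + (8640)*r^2 + (-16416)*r^3 + (8208)*r^4)*(k+1)^4 + ((1296)*r^1 + (-1296)*r^2)*(k+1)^5 + ((-432)*r^1 + (432)*r^2)*(k+1)^6) + ((k+1)^0*P^4*((19683)*r^0) + (k+1)^1*P^3*((13122)*r^0 + (-26244)*r^1) + (k+1)^2*P^2*((2916)*r^0 + (-37908)*r^1 + (-14580)*r^2 + (104976)*r^3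 + (-52488)*r^4) + (k+1)^3*P^1*((216)*r^0 + (-12960)*r^1 + (-20736)*r^2 + (208224)*r^3 + (-291600)*r^4 + (116640)*r^5)) := by
    intro P hP; subst hP; unfold F4; ring
  obtain ⟨m, hm⟩ := h
  rw [key ((k+1)*m) hm.symm]
  exact ⟨(((-1296)*r^1 + (191808)*r^3 + (-907200)*r^4 + (1920672)*r^5 + (-2218752)*r^6 + (1353024)*r^7 + (-338256)*r^8)*(k+1)^0 + ((432)*r^1 + (39312)*r^2 + (-140400)*r^3 + (222480)*r^4 + (-182736)*r^5 + (60912)*r^6)*(k+1)^1 + ((2160)*r^1 + (-20736)*r^2 + (18576)*r^3 + (37152)*r^4 + (-55728)*r^5 + (18576)*r^6)*(k+1)^2 + ((-2160)*r^1 + (-10800)*r^2 + (25920)*r^3 + (-12960)*r^4)*(k+1)^3 + ((-432)*r^1 + (8640)*r^2 + (-16416)*r^3 + (8208)*r^4)*(k+1)^4 + ((1296)*r^1 + (-1296)*r^2)*(k+1)^5 + ((-432)*r^1 + (432)*r^2)*(k+1)^6) + (m^4*((19683)*r^0) + m^3*((13122)*r^0 + (-26244)*r^1) + m^2*((2916)*r^0 + (-37908)*r^1 + (-14580)*r^2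 + (104976)*r^3 + (-52488)*r^4) + m^1*((216)*r^0 + (-12960)*r^1 + (-20736)*r^2 + (208224)*r^3 + (-291600)*r^4 + (116640)*r^5)), by ring⟩

theorem F4_dvd2 (k r : ℤ) (h : (k+2) ∣ r*(1+0-3*r)*(1+1-3*r)*(1+2-3*r)) : (k+2)^3 ∣ 432 * F4 k (r*(r-1)) := by
  have key : ∀ P : ℤ, P = r*(1+0-3*r)*(1+1-3*r)*(1+2-3*r) → 432 * F4 k (r*(r-1)) = (k+2)^3 * (((76032)*r^1 + (-241920)*r^2 + (-679104)*r^3 + (4686336)*r^4 + (-10310976)*r^5 + (11928384)*r^6 + (-7278336)*r^7 + (1819584)*r^8)*(k+2)^0 + ((-179712)*r^1 + (729216)*r^2 + (-883872)*r^3 + (-434160)*r^4 + (1998432)*r^5 + (-2244672)*r^6 + (1353024)*r^7 + (-338256)*r^8)*(k+2)^1 + ((238464)*r^1 + (-819072)*r^2 + (1211760)*r^3 + (-732240)*r^4 + (151632)*r^5 + (-50544)*r^6)*(k+2)^2 + ((-194400)*r^1 + (496368)*r^2 + (-622512)*r^3 + (357696)*r^4 + (-55728)*r^5 + (18576)*r^6)*(k+2)^3 + ((99792)*r^1 +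 (-178416)*r^2 + (157248)*r^3 + (-78624)*r^4)*(k+2)^4 + ((-31536)*r^1 + (39744)*r^2 + (-16416)*r^3 + (8208)*r^4)*(k+2)^5 + ((5616)*r^1 + (-5616)*r^2)*(k+2)^6 + ((-432)*r^1 + (432)*r^2)*(k+2)^7) + ((k+2)^0*P^3*((-256)*r^0) + (k+2)^1*P^2*((1536)*r^0) + (k+2)^2*P^1*((-2304)*r^0 + (-25344)*r^1 + (130752)*r^2 + (-241920)*r^3 + (198720)*r^4 + (-93312)*r^5 + (31104)*r^6)) := by
    intro P hP; subst hP; unfold F4; ring
  obtain ⟨m, hm⟩ := h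
  rw [key ((k+2)*m) hm.symm]
  exact ⟨(((76032)*r^1 + (-241920)*r^2 + (-679104)*r^3 + (4686336)*r^4 + (-10310976)*r^5 + (11928384)*r^6 + (-7278336)*r^7 + (1819584)*r^8)*(k+2)^0 + ((-179712)*r^1 + (729216)*r^2 + (-883872)*r^3 + (-434160)*r^4 + (1998432)*r^5 + (-2244672)*r^6 + (1353024)*r^7 + (-338256)*r^8)*(k+2)^1 + ((238464)*r^1 + (-819072)*r^2 + (1211760)*r^3 + (-732240)*r^4 + (151632)*r^5 + (-50544)*r^6)*(k+2)^2 + ((-194400)*r^1 + (496368)*r^2 + (-622512)*r^3 + (357696)*r^4 + (-55728)*r^5 + (18576)*r^6)*(k+2)^3 + ((99792)*r^1 + (-178416)*r^2 + (157248)*r^3 + (-78624)*r^4)*(k+2)^4 + ((-31536)*r^1 + (39744)*r^2 + (-16416)*r^3 + (8208)*r^4)*(k+2)^5 + ((5616)*r^1 + (-5616)*r^2)*(k+2)^6 + ((-432)*r^1 + (432)*r^2)*(k+2)^7) + (m^3*((-256)*r^0) + m^2*((1536)*r^0) + m^1*((-2304)*r^0 + (-25344)*r^1 + (130752)*r^2 + (-241920)*r^3 + (198720)*r^4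 + (-93312)*r^5 + (31104)*r^6)), by ring⟩

theorem F4_comb (k X : ℤ) (h0 : (k+0)^6 ∣ X) (h1 : (k+1)^4 ∣ X) (h2 : (k+2)^3 ∣ X) :
    (((k+0)^6) * (k+1)^4) * (k+2)^3 ∣ 256 * X := by
  have a1 := comb (X := 1 * X) (g := 1) (u := ((84)*k^0 + (216)*k^1 + (189)*k^2 + (56)*k^3)) (v := ((1)*k^0 + (-4)*k^1 + (10)*k^2 + (-20)*k^3 + (35)*k^4 + (-56)*k^5)) (Dvd.dvd.mul_left h0 1) (Dvd.dvd.mul_left h1 1) (by ring)
  have b1 : ((k+0)^6) * (k+1)^4 ∣ 1 * X := by convert a1 using 1; ring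
  have a2 := comb (X := 1 * X) (g := 256) (u := ((496)*k^0 + (464)*k^1 + (109)*k^2)) (v := ((32)*k^0 + (-48)*k^1 + (48)*k^2 + (-40)*k^3 + (30)*k^4 + (-21)*k^5 + (-48)*k^6 + (-222)*k^7 + (-246)*k^8 + (-109)*k^9)) b1 (Dvd.dvd.mul_left h2 1) (by ring)
  have b2 : (((k+0)^6) * (k+1)^4) * (k+2)^3 ∣ 256 * X := by convert a2 using 1; ring
  exact b2

theorem size4 (k s : ℤ) (hk : 3 ≤ k) (s0 : 2 * k ^ 2 ≤ 3 * s) :
    0 < F4 k s ∧ F4 k s ≤ 13400 * s ^ 6 := by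
  have k0 : 0 < k := by linarith
  have e : ∀ i : ℕ, 3 * k ^ i ≤ k ^ (i + 1) := fun i => by
    rw [pow_succ']; exact mul_le_mul_of_nonneg_right hk (pow_nonneg k0.le i)
  have e1 : 3 * k ≤ k ^ 2 := by simpa using e 1
  have e2 : 3 * k ^ 2 ≤ k ^ 3 := e 2
  have e3 : 3 * k ^ 3 ≤ k ^ 4 := e 3
  have e4 : 3 * k ^ 4 ≤ k ^ 5 := e 4
  have e5 : 3 * k ^ 5 ≤ k ^ 6 := e 5
  have e6 : 3 * k ^ 6 ≤ k ^ 7 := e 6
  have e7 : 3 * k ^ 7 ≤ k ^ 8 := e 7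
  have e8 : 3 * k ^ 8 ≤ k ^ 9 := e 8
  have e9 : 3 * k ^ 9 ≤ k ^ 10 := e 9
  have p2 : 0 < k ^ 2 := by positivity
  have hs : 0 < s := by linarith
  have f : ∀ i : ℕ, (2 * k ^ 2) ^ i ≤ (3 * s) ^ i := fun i =>
    pow_le_pow_left₀ (by positivity) s0 i
  have f2 : 4 * k ^ 4 ≤ 9 * s ^ 2 := by have := f 2; linarith [this, show (2 * k ^ 2) ^ 2 = 4 * k ^ 4 by ring, show (3 * s) ^ 2 = 9 * s ^ 2 by ring]
  have f3 : 8 * k ^ 6 ≤ 27 * s ^ 3 := by have := f 3; linarith [this, show (2 * k ^ 2) ^ 3 = 8 * k ^ 6 by ring, show (3 * s) ^ 3 = 27 * s ^ 3 by ring]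
  have f4 : 16 * k ^ 8 ≤ 81 * s ^ 4 := by have := f 4; linarith [this, show (2 * k ^ 2) ^ 4 = 16 * k ^ 8 by ring, show (3 * s) ^ 4 = 81 * s ^ 4 by ring]
  have f5 : 32 * k ^ 10 ≤ 243 * s ^ 5 := by have := f 5; linarith [this, show (2 * k ^ 2) ^ 5 = 32 * k ^ 10 by ring, show (3 * s) ^ 5 = 243 * s ^ 5 by ring]
  obtain ⟨A5, hA5⟩ : ∃ A, A = 1944 * k ^ 2 + 7776 * k := ⟨_, rfl⟩
  obtain ⟨A4, hA4⟩ : ∃ A, A = 783 * k ^ 4 + 2052 * k ^ 3 + 540 * k ^ 2 := ⟨_, rfl⟩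
  obtain ⟨A3, hA3⟩ : ∃ A, A = 43 * k ^ 6 + 399 * k ^ 5 + 912 * k ^ 4 + 556 * k ^ 3 := ⟨_, rfl⟩
  obtain ⟨A2, hA2⟩ : ∃ A, A = 19 * k ^ 8 + 122 * k ^ 7 + 279 * k ^ 6 + 268 * k ^ 5 + 92 * k ^ 4 :=
    ⟨_, rfl⟩
  obtain ⟨A1, hA1⟩ : ∃ A, A = k ^ 10 + 7 * k ^ 9 + 19 * k ^ 8 + 25 * k ^ 7 + 16 * k ^ 6
    + 4 * k ^ 5 := ⟨_, rfl⟩
  have hF : F4 k s = 11664 * s ^ 6 - A5 * s ^ 5 - A4 * s ^ 4 + A3 * s ^ 3 + A2 * s ^ 2
      + A1 * s := by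
    rw [hA5, hA4, hA3, hA2, hA1]; unfold F4; ring
  have l5 : 0 ≤ A5 * s ^ 5 := by rw [hA5]; positivity
  have l4 : 0 ≤ A4 * s ^ 4 := by rw [hA4]; positivity
  have l3 : 0 ≤ A3 * s ^ 3 := by rw [hA3]; positivity
  have l2 : 0 ≤ A2 * s ^ 2 := by rw [hA2]; positivity
  have l1 : 0 ≤ A1 * s := by rw [hA1]; positivity
  have u5 : A5 * s ^ 5 ≤ 6804 * s ^ 6 := by
    have h := mul_le_mul_of_nonneg_right (show A5 ≤ 6804 * s by linarith) (by positivity : 0 ≤ s ^ 5)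
    linarith [h, show 6804 * s * s ^ 5 = 6804 * s ^ 6 by ring]
  have q2 : 0 < s ^ 2 := by positivity
  have q3 : 0 < s ^ 3 := by positivity
  have q4 : 0 < s ^ 4 := by positivity
  have q5 : 0 < s ^ 5 := by positivity
  have q6 : 0 < s ^ 6 := by positivity
  have u4 : A4 * s ^ 4 ≤ 3500 * s ^ 6 := by
    have h := mul_le_mul_of_nonneg_right (show A4 ≤ 3500 * s ^ 2 by linarith) q4.le
    linarith [h, show 3500 * s ^ 2 * s ^ 4 = 3500 * s ^ 6 by ring]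
  have u3 : A3 * s ^ 3 ≤ 1050 * s ^ 6 := by
    have h := mul_le_mul_of_nonneg_right (show A3 ≤ 1050 * s ^ 3 by linarith) q3.le
    linarith [h, show 1050 * s ^ 3 * s ^ 3 = 1050 * s ^ 6 by ring]
  have u2 : A2 * s ^ 2 ≤ 550 * s ^ 6 := by
    have h := mul_le_mul_of_nonneg_right (show A2 ≤ 550 * s ^ 4 by linarith) q2.le
    linarith [h, show 550 * s ^ 4 * s ^ 2 = 550 * s ^ 6 by ring]
  have u1 : A1 * s ≤ 60 * s ^ 6 := by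
    have h := mul_le_mul_of_nonneg_right (show A1 ≤ 60 * s ^ 5 by linarith) hs.le
    linarith [h, show 60 * s ^ 5 * s = 60 * s ^ 6 by ring]
  rw [hF]
  constructor <;> linarith

theorem ints4 (k w r b2 b3 b4 : ℤ) (hk : 3 ≤ k) (hf : k * (k - 1) ≤ w - 1)
    (e1 : r * (k - 1) = w - 1)
    (e2 : b2 * ((k - 1) * k) = (w - 1) * w)
    (e3 : b3 * ((k - 1) * k * (k + 1)) = (w - 1) * w * (w + 1))
    (e4 : b4 * ((k - 1) * k * (k + 1) * (k + 2)) = (w - 1) * w * (w + 1) * (w + 2)) :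
    k ^ 25 ≤ 10 ^ 12 * (w - 1) ^ 12 := by
  have k1 : 0 < k - 1 := by linarith
  have hr : k ≤ r := by
    rw [← e1] at hf
    exact le_of_mul_le_mul_right hf k1
  obtain rfl : w = 1 + r * (k - 1) := by linarith
  have c := cong k r
  have z := fun n : ℤ => Int.ModEq.refl (n := n) r
  have h0 : (k+0) ∣ r*(1+0-1*r) := by
    have := move ((z _).mul (c 0 0)) ⟨b2, mul_left_cancel₀ k1.ne' (by linear_combination -e2)⟩
    convert this using 1; ring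
  have h1 : (k+1) ∣ r*(1+0-2*r)*(1+1-2*r) := by
    have := move (((z _).mul (c 1 0)).mul (c 1 1))
      ⟨b3 * k, mul_left_cancel₀ k1.ne' (by linear_combination -e3)⟩
    convert this using 1; ring
  have h2 : (k+2) ∣ r*(1+0-3*r)*(1+1-3*r)*(1+2-3*r) := by
    have := move ((((z _).mul (c 2 0)).mul (c 2 1)).mul (c 2 2))
      ⟨b4 * k * (k + 1), mul_left_cancel₀ k1.ne' (by linear_combination -e4)⟩
    convert this using 1; ring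
  have k0 : 0 < k := by linarith
  have r0 : 0 < r := by linarith
  have s0 : 2 * k ^ 2 ≤ 3 * (r * (r - 1)) := by nlinarith
  obtain ⟨f0, f1⟩ := size4 k _ hk s0
  have hd := F4_comb k _ (F4_dvd0 k r h0) (F4_dvd1 k r h1) (F4_dvd2 k r h2)
  have hd' := Int.le_of_dvd (by linarith) hd
  have hD : k ^ 13 ≤ (((k+0)^6) * (k+1)^4) * (k+2)^3 := by
    calc k ^ 13 = ((k^6) * k^4) * k^3 := by ring
      _ ≤ _ := by gcongr <;> linarith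
  have s1 : (r * (r - 1)) ^ 6 ≤ r ^ 12 := by
    calc (r * (r - 1)) ^ 6 ≤ (r ^ 2) ^ 6 := pow_le_pow_left₀ (by nlinarith) (by nlinarith) 6
      _ = r ^ 12 := by ring
  have key : k ^ 13 ≤ 1481932800 * r ^ 12 := by linarith
  have a : 2 * (r * k) ≤ 3 * (r * (k - 1)) := by nlinarith
  have b : (2 * (r * k)) ^ 12 ≤ (3 * (r * (k - 1))) ^ 12 := pow_le_pow_left₀ (by positivity) a 12
  have d := mul_le_mul_of_nonneg_right key (by positivity : 0 ≤ k ^ 12)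
  have p : 0 ≤ (r * (k - 1)) ^ 12 := by positivity
  have q : 1 + r * (k - 1) - 1 = r * (k - 1) := by ring
  rw [q]
  have b' : 4096 * (r ^ 12 * k ^ 12) ≤ 531441 * (r * (k - 1)) ^ 12 := by
    calc 4096 * (r ^ 12 * k ^ 12) = (2 * (r * k)) ^ 12 := by ring
      _ ≤ (3 * (r * (k - 1))) ^ 12 := b
      _ = 531441 * (r * (k - 1)) ^ 12 := by rw [mul_pow]; norm_num
  have d' : k ^ 25 ≤ 1481932800 * (r ^ 12 * k ^ 12) := by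
    calc k ^ 25 = k ^ 13 * k ^ 12 := by ring
      _ ≤ 1481932800 * r ^ 12 * k ^ 12 := d
      _ = _ := by ring
  generalize (r * (k - 1)) ^ 12 = X at *
  generalize r ^ 12 * k ^ 12 = Y at *
  linarith

theorem main4 {Ω : Type} [Fintype Ω] [DecidableEq Ω] {t k : ℕ} {𝔅 : Finset (Finset Ω)}
    (h : St t k 𝔅) (ht : 4 ≤ t) (hk : t < k) (hv : k < Fintype.card Ω) :
    (k - t + 2) ^ 25 ≤ 10 ^ 12 * (Fintype.card Ω - t + 1) ^ 12 := by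
  obtain ⟨a, ha⟩ : ∃ a, k = t + a := ⟨k - t, by omega⟩
  obtain ⟨u, hu⟩ : ∃ u, Fintype.card Ω = t + u := ⟨Fintype.card Ω - t, by omega⟩
  obtain ⟨r, e1⟩ := h.asc a u 1 (by omega) ha hu
  obtain ⟨b2, e2⟩ := h.asc a u 2 (by omega) ha hu
  obtain ⟨b3, e3⟩ := h.asc a u 3 (by omega) ha hu
  obtain ⟨b4, e4⟩ := h.asc a u 4 (by omega) ha hu
  simp only [Nat.ascFactorial_succ, Nat.ascFactorial_zero] at e1 e2 e3 e4
  obtain ⟨m, rfl⟩ : ∃ m, t = m + 2 := ⟨t - 2, by omega⟩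
  have hf := h.fisher hk hv
  rw [show k - m = a + 2 by omega, show k - (m + 1) = a + 1 by omega,
    show Fintype.card Ω - (m + 1) = u + 1 by omega] at hf
  rw [show k - (m + 2) = a by omega, show Fintype.card Ω - (m + 2) = u by omega]
  have ha1 : 1 ≤ a := by omega
  zify at e1 e2 e3 e4 hf ha1 ⊢
  have := ints4 (a + 2) (u + 2) r b2 b3 b4 (by linarith) (by linarith)
    (by linear_combination e1) (by linear_combination e2) (by linear_combination e3)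
    (by linear_combination e4)
  rw [show (u : ℤ) + 2 - 1 = u + 1 by ring] at this
  exact this

end Pool.Agent.FS.SuperQuad
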