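import Pool.Agent.FS.SuperQuad.Arith6
import Pool.Agent.FS.SuperQuad.Count

/-! From the counting identities to the bound. -/

namespace Pool.Agent.FS.SuperQuad

theorem cong (k r j i : ℤ) : 1 + r * (k - 1) + i ≡ 1 + i - (j + 1) * r [ZMOD (k + j)] := by
  rw [Int.modEq_iff_dvd]
  exact ⟨-r, by ring⟩

theorem move {n x y : ℤ} (h : x ≡ y [ZMOD n]) (hx : n ∣ x) : n ∣ y :=
  Int.modEq_zero_iff_dvd.mp (h.symm.trans (Int.modEq_zero_iff_dvd.mpr hx))

theorem ints6 (k w r b2 b3 b4 b5 b6 : ℤ) (hk : 3 ≤ k) (hf : k * (k - 1) ≤ w - 1)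
    (e1 : r * (k - 1) = w - 1)
    (e2 : b2 * ((k - 1) * k) = (w - 1) * w)
    (e3 : b3 * ((k - 1) * k * (k + 1)) = (w - 1) * w * (w + 1))
    (e4 : b4 * ((k - 1) * k * (k + 1) * (k + 2)) = (w - 1) * w * (w + 1) * (w + 2))
    (e5 : b5 * ((k - 1) * k * (k + 1) * (k + 2) * (k + 3)) =
      (w - 1) * w * (w + 1) * (w + 2) * (w + 3))
    (e6 : b6 * ((k - 1) * k * (k + 1) * (k + 2) * (k + 3) * (k + 4)) =
      (w - 1) * w * (w + 1) * (w + 2) * (w + 3) * (w + 4)) :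
    k ^ 9 ≤ 10 ^ 24 * (w - 1) ^ 4 := by
  have k1 : 0 < k - 1 := by linarith
  have hr : k ≤ r := by
    rw [← e1] at hf
    exact le_of_mul_le_mul_right hf k1
  obtain rfl : w = 1 + r * (k - 1) := by linarith
  have c := cong k r
  have z := fun n : ℤ => Int.ModEq.refl (n := n) r
  have h0 : (k+0) ∣ r*(1+0-1*r) := by
    have := move ((z _).mul (c 0 0)) ⟨b2, mul_left_cancel₀ k1.ne' (by linear_combination -e2)⟩
    convert this using 1; ring
  have h1 : (k+1) ∣ r*(1+0-2*r)*(1+1-2*r) := by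
    have := move (((z _).mul (c 1 0)).mul (c 1 1))
      ⟨b3 * k, mul_left_cancel₀ k1.ne' (by linear_combination -e3)⟩
    convert this using 1; ring
  have h2 : (k+2) ∣ r*(1+0-3*r)*(1+1-3*r)*(1+2-3*r) := by
    have := move ((((z _).mul (c 2 0)).mul (c 2 1)).mul (c 2 2))
      ⟨b4 * k * (k + 1), mul_left_cancel₀ k1.ne' (by linear_combination -e4)⟩
    convert this using 1; ring
  have h3 : (k+3) ∣ r*(1+0-4*r)*(1+1-4*r)*(1+2-4*r)*(1+3-4*r) := by
    have := move (((((z _).mul (c 3 0)).mul (c 3 1)).mul (c 3 2)).mul (c 3 3))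
      ⟨b5 * k * (k + 1) * (k + 2), mul_left_cancel₀ k1.ne' (by linear_combination -e5)⟩
    convert this using 1; ring
  have h4 : (k+4) ∣ r*(1+0-5*r)*(1+1-5*r)*(1+2-5*r)*(1+3-5*r)*(1+4-5*r) := by
    have := move ((((((z _).mul (c 4 0)).mul (c 4 1)).mul (c 4 2)).mul (c 4 3)).mul (c 4 4))
      ⟨b6 * k * (k + 1) * (k + 2) * (k + 3), mul_left_cancel₀ k1.ne' (by linear_combination -e6)⟩
    convert this using 1; ring
  have key := arith6 k r hk hr h0 h1 h2 h3 h4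
  have k0 : 0 < k := by linarith
  have r0 : 0 < r := by linarith
  have a : r * k ≤ 2 * (r * (k - 1)) := by nlinarith
  have b : (r * k) ^ 4 ≤ (2 * (r * (k - 1))) ^ 4 := pow_le_pow_left₀ (by positivity) a 4
  have d := mul_le_mul_of_nonneg_right key (by positivity : 0 ≤ k ^ 4)
  have p : 0 ≤ (r * (k - 1)) ^ 4 := by positivity
  have q : 1 + r * (k - 1) - 1 = r * (k - 1) := by ring
  rw [q]
  have b' : r ^ 4 * k ^ 4 ≤ 16 * (r * (k - 1)) ^ 4 := by
    calc r ^ 4 * k ^ 4 = (r * k) ^ 4 := by ring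
      _ ≤ (2 * (r * (k - 1))) ^ 4 := b
      _ = 16 * (r * (k - 1)) ^ 4 := by ring
  calc k ^ 9 = k ^ 5 * k ^ 4 := by ring
    _ ≤ 10 ^ 22 * r ^ 4 * k ^ 4 := d
    _ = 10 ^ 22 * (r ^ 4 * k ^ 4) := by ring
    _ ≤ _ := by linarith

theorem main6 {Ω : Type} [Fintype Ω] [DecidableEq Ω] {t k : ℕ} {𝔅 : Finset (Finset Ω)}
    (h : St t k 𝔅) (ht : 6 ≤ t) (hk : t < k) (hv : k < Fintype.card Ω) :
    (k - t + 2) ^ 9 ≤ 10 ^ 24 * (Fintype.card Ω - t + 1) ^ 4 := by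
  obtain ⟨a, ha⟩ : ∃ a, k = t + a := ⟨k - t, by omega⟩
  obtain ⟨u, hu⟩ : ∃ u, Fintype.card Ω = t + u := ⟨Fintype.card Ω - t, by omega⟩
  obtain ⟨r, e1⟩ := h.asc a u 1 (by omega) ha hu
  obtain ⟨b2, e2⟩ := h.asc a u 2 (by omega) ha hu
  obtain ⟨b3, e3⟩ := h.asc a u 3 (by omega) ha hu
  obtain ⟨b4, e4⟩ := h.asc a u 4 (by omega) ha hu
  obtain ⟨b5, e5⟩ := h.asc a u 5 (by omega) ha hu
  obtain ⟨b6, e6⟩ := h.asc a u 6 (by omega) ha hu
  simp only [Nat.ascFactorial_succ, Nat.ascFactorial_zero] at e1 e2 e3 e4 e5 e6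
  obtain ⟨m, rfl⟩ : ∃ m, t = m + 2 := ⟨t - 2, by omega⟩
  have hf := h.fisher hk hv
  rw [show k - m = a + 2 by omega, show k - (m + 1) = a + 1 by omega,
    show Fintype.card Ω - (m + 1) = u + 1 by omega] at hf
  rw [show k - (m + 2) = a by omega, show Fintype.card Ω - (m + 2) = u by omega]
  have ha1 : 1 ≤ a := by omega
  zify at e1 e2 e3 e4 e5 e6 hf ha1 ⊢
  have := ints6 (a + 2) (u + 2) r b2 b3 b4 b5 b6 (by linarith) (by linarith)
    (by linear_combination e1) (by linear_combination e2) (by linear_combination e3)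
    (by linear_combination e4) (by linear_combination e5) (by linear_combination e6)
  convert this using 2; ring

end Pool.Agent.FS.SuperQuad
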